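import Pool.Agent.K1H80.KA.StmB

/-!
Piece FIB of project KA (part (b) for `H = K_2`): for quadratic forms `f i` the fibre ring
`⨁ I^t / m I^t` is `F[f]`.
-/

set_option autoImplicit false

namespace Pool.Agent.K1H31.KA

open MvPolynomial Pool.Agent.Results.MP_188fab_co.JacobianCharTwo Pool.Agent.KA

variable {F : Type} [Field F] {σ ι : Type}

theorem D_C (r : F) : D (C r : MvPolynomial σ F) = Polynomial.C (C r) := by
  rw [← algebraMap_eq, AlgHom.commutes]
  rfl

theorem D_monomial (m : σ →₀ ℕ) (r : F) :
    D (monomial m r : MvPolynomial σ F) =
      Polynomial.C (monomial m r) * Polynomial.X ^ (m.sum fun _ k => k) := by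
  have h1 : (monomial m r : MvPolynomial σ F) = C r * m.prod fun v k => X v ^ k := monomial_eq
  rw [h1, map_mul, D_C, map_mul, mul_assoc]
  congr 1
  rw [Finsupp.prod, map_prod, map_prod, Finsupp.sum, ← Finset.prod_pow_eq_pow_sum,
    ← Finset.prod_mul_distrib]
  refine Finset.prod_congr rfl fun v _ => ?_
  rw [map_pow, D_X, mul_pow, map_pow]

theorem D_hom {n : ℕ} {P : MvPolynomial σ F} (hP : P.IsHomogeneous n) :
    D P = Polynomial.C P * Polynomial.X ^ n := by
  have h1 : ∀ m ∈ P.support, D (monomial m (coeff m P)) =
      Polynomial.C (monomial m (coeff m P)) * Polynomial.X ^ n := by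
    intro m hm
    rw [D_monomial]
    congr 2
    have h2 := hP (mem_support_iff.mp hm)
    rw [← h2, Finsupp.weight_apply]
    simp [Finsupp.sum]
  conv_lhs => rw [P.as_sum]
  rw [map_sum, Finset.sum_congr rfl h1, ← Finset.sum_mul, ← map_sum, ← P.as_sum]

variable (f : ι → MvPolynomial σ F)

/-- the map from the polynomial ring onto the fibre ring -/
noncomputable def psi : MvPolynomial ι F →ₐ[F]
    (reesAlgebra (Ideal.span (Set.range f)) ⧸ mI (Ideal.span (Set.range f))) :=
  aeval fun i => Ideal.Quotient.mk _ (el f i)

theorem psi_surj : Function.Surjective (psi f) := by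
  set I := Ideal.span (Set.range f) with hI
  let ψ : MvPolynomial ι F →ₐ[F] (reesAlgebra I ⧸ mI I) :=
    aeval fun i => Ideal.Quotient.mk _ (el f i)
  have hconst : ∀ c : MvPolynomial σ F,
      Ideal.Quotient.mk (mI I) (algebraMap (MvPolynomial σ F) (reesAlgebra I) c) ∈ ψ.range := by
    intro c
    have h1 : c - C (constantCoeff c) ∈ Ideal.span (Set.range (X : σ → MvPolynomial σ F)) := by
      rw [← Set.image_univ, MvPolynomial.mem_ideal_span_X_image]
      intro m hm
      by_contra hcon
      push Not at hcon
      have hm0 : m = 0 := by
        ext i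
        exact hcon i (Set.mem_univ i)
      rw [mem_support_iff, hm0, coeff_sub, coeff_zero_C, constantCoeff_eq, sub_self] at hm
      exact hm rfl
    have h2 : Ideal.Quotient.mk (mI I) (algebraMap (MvPolynomial σ F) (reesAlgebra I) c) =
        algebraMap F _ (constantCoeff c) := by
      have h3 : Ideal.Quotient.mk (mI I) (algebraMap (MvPolynomial σ F) (reesAlgebra I)
          (c - C (constantCoeff c))) = 0 :=
        Ideal.Quotient.eq_zero_iff_mem.2 (Ideal.mem_map_of_mem _ h1)
      rw [map_sub, map_sub, sub_eq_zero] at h3
      rw [h3]
      rfl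
    rw [h2]
    exact ψ.range.algebraMap_mem _
  have hψs : Function.Surjective ψ := by
    intro z
    obtain ⟨⟨r, hr⟩, rfl⟩ := Ideal.Quotient.mk_surjective z
    have key : ∀ r ∈ Algebra.adjoin (MvPolynomial σ F)
        (Submodule.map (Polynomial.monomial 1 : MvPolynomial σ F →ₗ[MvPolynomial σ F] _) I :
          Set (Polynomial (MvPolynomial σ F))), ∀ hr : r ∈ reesAlgebra I,
        Ideal.Quotient.mk (mI I) ⟨r, hr⟩ ∈ ψ.range := by
      intro r hr
      induction hr using Algebra.adjoin_induction with
      | mem x hx =>
        intro hx'
        obtain ⟨a, ha, rfl⟩ := hx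
        have hspan : ∀ a ∈ I, ∀ h : Polynomial.monomial 1 a ∈ reesAlgebra I,
            Ideal.Quotient.mk (mI I) ⟨Polynomial.monomial 1 a, h⟩ ∈ ψ.range := by
          intro a ha
          induction ha using Submodule.span_induction with
          | mem x hx =>
            intro h
            obtain ⟨i, rfl⟩ := hx
            refine ⟨X i, ?_⟩
            show ψ (X i) = _
            simp only [ψ, aeval_X]
            rfl
          | zero =>
            intro h
            have : (⟨Polynomial.monomial 1 0, h⟩ : reesAlgebra I) = 0 := by
              apply Subtype.ext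
              simp
            rw [this, map_zero]
            exact ψ.range.zero_mem
          | add x y hx hy hx' hy' =>
            intro h
            have h1 : Polynomial.monomial 1 x ∈ reesAlgebra I := by
              apply reesAlgebra.monomial_mem.2; rw [pow_one]; exact hx
            have h2 : Polynomial.monomial 1 y ∈ reesAlgebra I := by
              apply reesAlgebra.monomial_mem.2; rw [pow_one]; exact hy
            have : (⟨Polynomial.monomial 1 (x + y), h⟩ : reesAlgebra I) =
                ⟨Polynomial.monomial 1 x, h1⟩ + ⟨Polynomial.monomial 1 y, h2⟩ := by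
              apply Subtype.ext
              show Polynomial.monomial 1 (x + y) = Polynomial.monomial 1 x + Polynomial.monomial 1 y
              rw [map_add]
            rw [this, map_add]
            exact ψ.range.add_mem (hx' h1) (hy' h2)
          | smul c x hx hx' =>
            intro h
            have h1 : Polynomial.monomial 1 x ∈ reesAlgebra I := by
              apply reesAlgebra.monomial_mem.2; rw [pow_one]; exact hx
            have : (⟨Polynomial.monomial 1 (c • x), h⟩ : reesAlgebra I) =
                algebraMap (MvPolynomial σ F) (reesAlgebra I) c *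
                  ⟨Polynomial.monomial 1 x, h1⟩ := by
              apply Subtype.ext
              show Polynomial.monomial 1 (c • x) = Polynomial.C c * Polynomial.monomial 1 x
              rw [Polynomial.C_mul_monomial, smul_eq_mul]
            rw [this, map_mul]
            exact ψ.range.mul_mem (hconst c) (hx' h1)
        exact hspan a ha hx'
      | algebraMap c =>
        intro h
        exact hconst c
      | add x y hx hy hx' hy' =>
        intro h
        have h1 : x ∈ reesAlgebra I := by rw [← adjoin_monomial_eq_reesAlgebra]; exact hx
        have h2 : y ∈ reesAlgebra I := by rw [← adjoin_monomial_eq_reesAlgebra]; exact hy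
        have : (⟨x + y, h⟩ : reesAlgebra I) = ⟨x, h1⟩ + ⟨y, h2⟩ := rfl
        rw [this, map_add]
        exact ψ.range.add_mem (hx' h1) (hy' h2)
      | mul x y hx hy hx' hy' =>
        intro h
        have h1 : x ∈ reesAlgebra I := by rw [← adjoin_monomial_eq_reesAlgebra]; exact hx
        have h2 : y ∈ reesAlgebra I := by rw [← adjoin_monomial_eq_reesAlgebra]; exact hy
        have : (⟨x * y, h⟩ : reesAlgebra I) = ⟨x, h1⟩ * ⟨y, h2⟩ := rfl
        rw [this, map_mul]
        exact ψ.range.mul_mem (hx' h1) (hy' h2)
    exact key r (by rw [adjoin_monomial_eq_reesAlgebra]; exact hr) hr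
  exact hψs

theorem psi_ker (hf : ∀ i, D (f i) = Polynomial.C (f i) * Polynomial.X ^ 2)
    (P : MvPolynomial ι F) : psi f P = 0 ↔ aeval f P = 0 := by
  constructor
  · set I := Ideal.span (Set.range f) with hI
    let ψ : MvPolynomial ι F →ₐ[F] (reesAlgebra I ⧸ mI I) :=
      aeval fun i => Ideal.Quotient.mk _ (el f i)
    let L : (reesAlgebra I ⧸ mI I) →+* MvPolynomial σ F :=
      Ideal.Quotient.lift (mI I) (lead f hf) (lead_mI f hf)
    have hL : L.comp ψ.toRingHom = (aeval f : MvPolynomial ι F →ₐ[F] MvPolynomial σ F).toRingHom := by
      apply MvPolynomial.ringHom_ext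
      · intro r
        have h1 : ψ.toRingHom (C r) = Ideal.Quotient.mk _ (algebraMap F (reesAlgebra I) r) := by
          show ψ (C r) = _
          rw [← algebraMap_eq, AlgHom.commutes]
          rfl
        rw [RingHom.comp_apply, h1]
        show lead f hf _ = aeval f (C r)
        rw [lead_apply]
        have : ((algebraMap F (reesAlgebra I) r) : Polynomial (MvPolynomial σ F)) =
          Polynomial.monomial 0 (C r) := rfl
        rw [this, lam_monomial]
        have h3 : D (C r : MvPolynomial σ F) = Polynomial.C (C r) := by
          rw [← algebraMap_eq, AlgHom.commutes]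
          rfl
        rw [h3]
        simp
      · intro i
        rw [RingHom.comp_apply]
        have h1 : ψ.toRingHom (X i) = Ideal.Quotient.mk _ (el f i) := by
          show ψ (X i) = _
          simp [ψ]
        rw [h1]
        show lead f hf (el f i) = aeval f (X i)
        rw [lead_apply]
        show (lam (Polynomial.monomial 1 (f i))).eval 1 = _
        rw [lam_monomial, hf]
        simp

    intro h
    have h2 : L (ψ P) = aeval f P := congrArg (fun g : MvPolynomial ι F →+* MvPolynomial σ F => g P) hL
    rw [← h2]
    have h3 : ψ P = 0 := h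
    rw [h3, map_zero]
  · intro h
    -- the map to the Rees algebra
    let Ψ : MvPolynomial ι F →ₐ[F] reesAlgebra (Ideal.span (Set.range f)) := aeval fun i => el f i
    have h1 : ∀ Q, Polynomial.expand (MvPolynomial σ F) 2
        ((Ψ Q : reesAlgebra (Ideal.span (Set.range f))) : Polynomial (MvPolynomial σ F)) =
          D (aeval f Q : MvPolynomial σ F) := by
      intro Q
      induction Q using MvPolynomial.induction_on with
      | C a =>
        have e1 : ((Ψ (C a) : reesAlgebra (Ideal.span (Set.range f))) :
            Polynomial (MvPolynomial σ F)) = Polynomial.C (C a) := by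
          rw [← algebraMap_eq, AlgHom.commutes]
          rfl
        have e2 : (aeval f (C a : MvPolynomial ι F) : MvPolynomial σ F) = C a := by
          rw [← algebraMap_eq, AlgHom.commutes]
          rfl
        rw [e1, e2, D_C, Polynomial.expand_C]
      | add p q hp hq =>
        have e1 : ((Ψ (p + q) : reesAlgebra (Ideal.span (Set.range f))) :
            Polynomial (MvPolynomial σ F)) = (Ψ p : Polynomial (MvPolynomial σ F)) +
              (Ψ q : Polynomial (MvPolynomial σ F)) := by
          rw [map_add Ψ]
          rfl
        have e2 : (aeval f (p + q) : MvPolynomial σ F) = aeval f p + aeval f q := map_add _ _ _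
        rw [e1, e2, map_add, map_add D, hp, hq]
      | mul_X p i hp =>
        have e1 : ((Ψ (X i) : reesAlgebra (Ideal.span (Set.range f))) :
            Polynomial (MvPolynomial σ F)) = Polynomial.monomial 1 (f i) := by
          show (((aeval fun i => el f i) (X i) : reesAlgebra (Ideal.span (Set.range f))) :
            Polynomial (MvPolynomial σ F)) = _
          rw [aeval_X]
          rfl
        have e0 : ((Ψ (p * X i) : reesAlgebra (Ideal.span (Set.range f))) :
            Polynomial (MvPolynomial σ F)) = (Ψ p : Polynomial (MvPolynomial σ F)) *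
              (Ψ (X i) : Polynomial (MvPolynomial σ F)) := by
          rw [map_mul Ψ]
          rfl
        have e2 : (aeval f (p * X i) : MvPolynomial σ F) = aeval f p * f i := by
          rw [map_mul, aeval_X]
        rw [e0, e1, e2, map_mul, map_mul D, hp, hf, Polynomial.expand_monomial,
          Polynomial.C_mul_X_pow_eq_monomial]
    have h2 : ((Ψ P : reesAlgebra (Ideal.span (Set.range f))) : Polynomial (MvPolynomial σ F)) = 0 := by
      have h3 := h1 P
      rw [h, map_zero] at h3
      exact (Polynomial.expand_eq_zero (by norm_num)).mp h3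
    have h4 : Ψ P = 0 := Subtype.ext h2
    have h5 : psi f P = Ideal.Quotient.mk _ (Ψ P) := by
      have h6 : psi f = (Ideal.Quotient.mkₐ F _).comp Ψ := by
        apply MvPolynomial.algHom_ext
        intro i
        rw [psi, aeval_X, AlgHom.comp_apply, aeval_X]
        rfl
      rw [h6]
      rfl
    rw [h5, h4, map_zero]

/-- **piece FIB** -/
theorem fib : FIBStm := by
  intro F _ σ ι _ f hf
  have hD : ∀ i, D (f i) = Polynomial.C (f i) * Polynomial.X ^ 2 := fun i => D_hom (hf i)
  rw [Algebra.adjoin_range_eq_range_aeval]
  have e1 := RingHom.quotientKerEquivOfSurjective (f := (psi f).toRingHom) (psi_surj f)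
  have e2 := RingHom.quotientKerEquivOfSurjective
    (f := ((aeval f : MvPolynomial ι F →ₐ[F] MvPolynomial σ F).rangeRestrict).toRingHom)
    (AlgHom.rangeRestrict_surjective _)
  have hk : RingHom.ker (psi f).toRingHom =
      RingHom.ker ((aeval f : MvPolynomial ι F →ₐ[F] MvPolynomial σ F).rangeRestrict).toRingHom := by
    ext P
    rw [RingHom.mem_ker, RingHom.mem_ker]
    show psi f P = 0 ↔ (aeval f : MvPolynomial ι F →ₐ[F] MvPolynomial σ F).rangeRestrict P = 0
    rw [psi_ker f hD]
    constructor
    · intro h
      exact Subtype.ext h
    · intro h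
      exact congrArg Subtype.val h
  have e3 := Ideal.quotEquivOfEq hk
  exact (ringKrullDim_eq_of_ringEquiv e1.symm).trans
    ((ringKrullDim_eq_of_ringEquiv e3).trans (ringKrullDim_eq_of_ringEquiv e2))

end Pool.Agent.K1H31.KA
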